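import Pool.Agent.H740R3.BQStmts

set_option autoImplicit false

open Filter Topology

namespace Pool.Agent.H740R3.BQ

theorem t2a : T2a := by
  intro h0 d p hd hdet0
  set G : ℕ → Matrix (Fin (6 * d + 6)) (Fin (6 * d + 6)) ℂ :=
    fun ν => GM d (dl p (ν ^ (2 * d))) with hG
  set Gi : Matrix (Fin (6 * d + 6)) (Fin (6 * d + 6)) ℂ := GM d (dinf (p 0)) with hGi
  have hGt : Tendsto G atTop (𝓝 Gi) := by
    refine tendsto_pi_nhds.mpr fun i => tendsto_pi_nhds.mpr fun k => ?_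
    simp only [hG, hGi, GM]
    split_ifs
    · exact tendsto_const_nhds
    · exact tendsto_const_nhds
    · exact h0 d p hd _
    · exact tendsto_const_nhds
  have hdt : Tendsto (fun ν => (G ν).det) atTop (𝓝 Gi.det) :=
    ((Continuous.matrix_det continuous_id).tendsto Gi).comp hGt
  have hadj : Tendsto (fun ν => (G ν).adjugate) atTop (𝓝 Gi.adjugate) :=
    ((Continuous.matrix_adjugate continuous_id).tendsto Gi).comp hGt
  have hinv : Tendsto (fun ν => (G ν)⁻¹) atTop (𝓝 Gi⁻¹) := by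
    have h1 : Tendsto (fun ν => ((G ν).det)⁻¹ • (G ν).adjugate) atTop
        (𝓝 ((Gi.det)⁻¹ • Gi.adjugate)) := (hdt.inv₀ hdet0).smul hadj
    have h2 : ∀ M : Matrix (Fin (6 * d + 6)) (Fin (6 * d + 6)) ℂ, M⁻¹ = (M.det)⁻¹ • M.adjugate := by
      intro M
      rw [Matrix.inv_def, Ring.inverse_eq_inv']
    rw [h2 Gi]
    refine h1.congr ?_
    intro ν
    rw [h2 (G ν)]
  have hW : Tendsto (fun ν => (G ν)⁻¹ * SM (6 * d + 6) * G ν) atTop
      (𝓝 (Gi⁻¹ * SM (6 * d + 6) * Gi)) := (hinv.mul tendsto_const_nhds).mul hGt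
  set W := Gi⁻¹ * SM (6 * d + 6) * Gi with hWdef
  refine ⟨(∑ i, ∑ j, ‖W i j‖) + 1, ?_⟩
  have h3 : ∀ᶠ ν in atTop, ∀ i j : Fin (6 * d + 6),
      ‖((G ν)⁻¹ * SM (6 * d + 6) * G ν) i j‖ ≤ (∑ i, ∑ j, ‖W i j‖) + 1 := by
    rw [eventually_all]
    intro i
    rw [eventually_all]
    intro j
    have h4 : Tendsto (fun ν => ((G ν)⁻¹ * SM (6 * d + 6) * G ν) i j) atTop (𝓝 (W i j)) :=
      (tendsto_pi_nhds.mp (tendsto_pi_nhds.mp hW i)) j
    have h5 : ‖W i j‖ < (∑ i, ∑ j, ‖W i j‖) + 1 := by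
      have h6 : ‖W i j‖ ≤ ∑ j, ‖W i j‖ :=
        Finset.single_le_sum (f := fun j => ‖W i j‖) (fun _ _ => norm_nonneg _) (Finset.mem_univ j)
      have h7 : ∑ j, ‖W i j‖ ≤ ∑ i, ∑ j, ‖W i j‖ :=
        Finset.single_le_sum (f := fun i => ∑ j, ‖W i j‖)
          (fun _ _ => Finset.sum_nonneg fun _ _ => norm_nonneg _) (Finset.mem_univ i)
      linarith
    exact (h4.norm.eventually_lt_const h5).mono fun ν h => h.le
  have h8 : ∀ᶠ ν in atTop, (G ν).det ≠ 0 := hdt.eventually_ne hdet0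
  filter_upwards [h3, h8] with ν h9 h10
  exact ⟨isUnit_iff_ne_zero.mpr h10, h9⟩

end Pool.Agent.H740R3.BQ
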